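import Pool.Agent.Helper78.Net.Defs

set_option autoImplicit false

open Finset

namespace Pool.Agent.Helper78.Net

universe u

variable {V : Type u}

/-- counting boundary edges through a system of chosen neighbours -/
lemma flow [DecidableEq V] (G : SimpleGraph V) (A : Finset V) (f : V → Finset V)
    (hf : ∀ x ∈ A, ∀ y ∈ f x, G.Adj x y) :
    ((∑ x ∈ A, (f x \ A).card : ℕ) : ℕ∞) ≤ (edgeBoundary G A).encard := by
  classical
  have h1 : (∑ x ∈ A, (f x \ A).card) = (A.sigma (fun x => f x \ A)).card := by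
    rw [Finset.card_sigma]
  let F : (Σ _ : V, V) → Sym2 V := fun p => s(p.1, p.2)
  have hinj : Set.InjOn F (A.sigma (fun x => f x \ A)) := by
    rintro ⟨x, y⟩ hp ⟨x', y'⟩ hp' h
    simp only [Finset.coe_sigma, Set.mem_sigma_iff, Finset.mem_coe, Finset.mem_sdiff] at hp hp'
    simp only [F, Sym2.eq_iff] at h
    rcases h with ⟨rfl, rfl⟩ | ⟨rfl, rfl⟩
    · rfl
    · exact absurd hp'.1 hp.2.2
  rw [h1, ← Finset.card_image_of_injOn hinj, ← Set.encard_coe_eq_coe_finsetCard]
  apply Set.encard_le_encard
  intro e he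
  simp only [Finset.coe_image, Set.mem_image, Finset.coe_sigma, Set.mem_sigma_iff,
    Finset.mem_coe, Finset.mem_sdiff] at he
  obtain ⟨⟨x, y⟩, ⟨hx, hy, hyA⟩, rfl⟩ := he
  exact ⟨hf x hx y hy, x, hx, y, hyA, rfl⟩

/-- lower bound for the Cheeger constant -/
lemma le_cheeger (G : SimpleGraph V) (c : ENNReal)
    (h : ∀ A : Finset V, A.Nonempty → c * (A.card : ENNReal) ≤ ((edgeBoundary G A).encard : ENNReal)) :
    c ≤ cheeger G := by
  unfold cheeger
  refine le_iInf₂ (fun A hA => ?_)
  rw [ENNReal.le_div_iff_mul_le]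
  · exact h A hA
  · left
    simpa using hA.ne_empty
  · left
    exact ENNReal.natCast_ne_top _

lemma cheeger_le (G : SimpleGraph V) (A : Finset V) (hA : A.Nonempty) :
    cheeger G ≤ ((edgeBoundary G A).encard : ENNReal) / (A.card : ENNReal) :=
  iInf₂_le A hA

/-- every point is within distance `< k` of a `k`-net. -/
lemma IsNet.cover {G : SimpleGraph V} {k : ℕ} (hk : 1 ≤ k) {S : Set V} (hS : IsNet G k S) (x : V) :
    ∃ y ∈ S, G.dist x y < k := by
  by_contra hcon
  push Not at hcon
  have hx : x ∈ S := by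
    have := hS.2 (y := insert x S) ?_ (Set.subset_insert x S)
    · exact this (Set.mem_insert x S)
    · intro a ha b hb hab
      rcases ha with rfl | ha <;> rcases hb with rfl | hb
      · exact absurd rfl hab
      · exact hcon b hb
      · rw [SimpleGraph.dist_comm]; exact hcon a ha
      · exact hS.1 a ha b hb hab
  have := hcon x hx
  rw [SimpleGraph.dist_self] at this
  omega

end Pool.Agent.Helper78.Net
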