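import Mathlib

set_option autoImplicit false

namespace Pool.Agent.Helper78.Net

universe u

/-- The edge boundary of a finite vertex set `A`: the edges with exactly one endpoint in `A`. -/
def edgeBoundary {V : Type u} (G : SimpleGraph V) (A : Finset V) : Set (Sym2 V) :=
  {e | e ∈ G.edgeSet ∧ ∃ x ∈ A, ∃ y, y ∉ A ∧ e = s(x, y)}

/-- The Cheeger (edge-isoperimetric) constant: the infimum of `|∂A| / |A|` over all finite
nonempty vertex sets `A`. -/
noncomputable def cheeger {V : Type u} (G : SimpleGraph V) : ENNReal :=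
  ⨅ (A : Finset V) (_ : A.Nonempty), ((edgeBoundary G A).encard : ENNReal) / (A.card : ENNReal)

/-- `S` is a `k`-net of `G`: maximal under inclusion among the sets whose distinct points are
pairwise at distance at least `k`. -/
def IsNet {V : Type u} (G : SimpleGraph V) (k : ℕ) (S : Set V) : Prop :=
  Maximal (fun S : Set V => ∀ x ∈ S, ∀ y ∈ S, x ≠ y → k ≤ G.dist x y) S

/-- The `k`-net graph: distinct points of `S` are adjacent iff their distance is at most `2k`. -/
def netGraph {V : Type u} (G : SimpleGraph V) (k : ℕ) (S : Set V) : SimpleGraph S where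
  Adj x y := x ≠ y ∧ G.dist (x : V) (y : V) ≤ 2 * k
  symm := ⟨fun x y h => ⟨h.1.symm, by rw [SimpleGraph.dist_comm]; exact h.2⟩⟩
  loopless := ⟨fun x h => h.1 rfl⟩

end Pool.Agent.Helper78.Net
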