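import Pool.Agent.Helper78.Net.Basic

set_option autoImplicit false

open Finset

namespace Pool.Agent.Helper78.Net

/-- Raw vertices: `m w c` is the clone `c` of the binary word `w`; `h τ v` is a hub vertex. -/
inductive Vx
  | m (w : List Bool) (c : Bool)
  | h (τ : Bool) (v : List Bool)
deriving DecidableEq

variable (n : Bool → ℕ)

/-- hub words have length divisible by `3` and less than `3 * n τ`. -/
def Valid : Vx → Prop
  | .m _ _ => True
  | .h τ v => 3 ∣ v.length ∧ v.length < 3 * n τ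

/-- `R x y`: `y` is a child of `x`. -/
def R : Vx → Vx → Prop
  | .m w _, .m w' _ => ∃ e, w' = e :: w
  | .h τ v, .h τ' v' => τ = τ' ∧ ∃ a b c, v' = a :: b :: c :: v
  | .h τ v, .m w _ => v.length + 3 = 3 * n τ ∧ ∃ a b, w = a :: b :: v
  | .m _ _, .h _ _ => False

/-- The vertex type. -/
abbrev Vt : Type := {x : Vx // Valid n x}

lemma R_irrefl (x : Vx) : ¬ R n x x := by
  cases x with
  | m w c => rintro ⟨e, he⟩; have := congrArg List.length he; simp at this
  | h τ v =>
    rintro ⟨-, a, b, c, he⟩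
    have := congrArg List.length he
    simp only [List.length_cons] at this
    omega

/-- The graph: a binary tree with doubled vertices and two `8`-ary hub trees whose leaves are the
vertices of level `3 n τ - 1`. -/
def G : SimpleGraph (Vt n) where
  Adj x y := R n x.1 y.1 ∨ R n y.1 x.1
  symm := ⟨fun _ _ h => h.symm⟩
  loopless := ⟨fun x h => (R_irrefl n x.1) (h.elim id id)⟩

/-- main vertices -/
def mk (w : List Bool) (c : Bool) : Vt n := ⟨.m w c, trivial⟩

/-- hub vertices -/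
def hb (τ : Bool) (v : List Bool) (hv : 3 ∣ v.length ∧ v.length < 3 * n τ) : Vt n := ⟨.h τ v, hv⟩

/-- children of a hub vertex -/
def chh (τ : Bool) (v : List Bool) (hv : 3 ∣ v.length ∧ v.length < 3 * n τ) : Finset (Vt n) :=
  if hl : v.length + 3 < 3 * n τ then
      Finset.univ.image (fun p : Bool × Bool × Bool => hb n τ (p.1 :: p.2.1 :: p.2.2 :: v)
        ⟨by simpa using hv.1, by simpa using hl⟩)
    else Finset.univ.image (fun p : Bool × Bool × Bool => mk n (p.1 :: p.2.1 :: v) p.2.2)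

/-- children -/
def ch : Vt n → Finset (Vt n)
  | ⟨.m w _, _⟩ => Finset.univ.image (fun p : Bool × Bool => mk n (p.1 :: w) p.2)
  | ⟨.h τ v, hv⟩ => chh n τ v hv

lemma ch_m (w : List Bool) (c : Bool) (h : Valid n (.m w c)) :
    ch n ⟨.m w c, h⟩ = Finset.univ.image (fun p : Bool × Bool => mk n (p.1 :: w) p.2) := rfl

lemma ch_h (τ : Bool) (v : List Bool) (h : Valid n (.h τ v)) :
    ch n ⟨.h τ v, h⟩ = chh n τ v h := rfl

lemma mem_ch (x y : Vt n) : y ∈ ch n x → R n x.1 y.1 := by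
  rcases x with ⟨x | x, hx⟩
  · intro hy
    simp only [ch, Finset.mem_image, Finset.mem_univ, true_and] at hy
    obtain ⟨p, rfl⟩ := hy
    exact ⟨_, rfl⟩
  · intro hy
    rw [ch_h] at hy
    unfold chh at hy
    split_ifs at hy with hl
    · simp only [Finset.mem_image, Finset.mem_univ, true_and] at hy
      obtain ⟨p, rfl⟩ := hy
      exact ⟨rfl, _, _, _, rfl⟩
    · simp only [Finset.mem_image, Finset.mem_univ, true_and] at hy
      obtain ⟨p, rfl⟩ := hy
      refine ⟨?_, _, _, rfl⟩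
      obtain ⟨h1, h2⟩ := hx
      omega

lemma ch_of_R (x y : Vt n) (h : R n x.1 y.1) : y ∈ ch n x := by
  rcases x with ⟨⟨w, c⟩ | ⟨τ, v⟩, hx⟩ <;> rcases y with ⟨⟨w', c'⟩ | ⟨τ', v'⟩, hy⟩
  · obtain ⟨e, rfl⟩ := h
    simp only [ch, Finset.mem_image, Finset.mem_univ, true_and]
    exact ⟨(e, c'), rfl⟩
  · exact h.elim
  · obtain ⟨h1, a, b, rfl⟩ := h
    rw [ch_h]
    unfold chh
    rw [dif_neg (by omega)]
    simp only [Finset.mem_image, Finset.mem_univ, true_and]
    exact ⟨(a, b, c'), rfl⟩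
  · obtain ⟨rfl, a, b, c, rfl⟩ := h
    rw [ch_h]
    unfold chh
    rw [dif_pos (by simpa using hy.2)]
    simp only [Finset.mem_image, Finset.mem_univ, true_and]
    exact ⟨(a, b, c), rfl⟩

/-- weight of the downward edges -/
def wt : Vx → ℕ
  | .m _ _ => 4
  | .h _ _ => 1

/-- possible parents -/
def pa : Vx → Finset Vx
  | .m w _ => {.m w.tail false, .m w.tail true, .h false (w.drop 2), .h true (w.drop 2)}
  | .h τ v => {.h τ (v.drop 3)}

lemma mem_pa (x y : Vx) (h : R n x y) : x ∈ pa y := by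
  rcases x with ⟨w, c⟩ | ⟨τ, v⟩ <;> rcases y with ⟨w', c'⟩ | ⟨τ', v'⟩
  · obtain ⟨e, rfl⟩ := h
    cases c <;> simp [pa]
  · exact h.elim
  · obtain ⟨h1, a, b, rfl⟩ := h
    cases τ <;> simp [pa]
  · obtain ⟨rfl, a, b, c, rfl⟩ := h
    simp [pa]

lemma ch_card_m (w : List Bool) (c : Bool) (h : Valid n (.m w c)) :
    (ch n ⟨.m w c, h⟩).card = 4 := by
  rw [ch_m]
  rw [Finset.card_image_of_injective]
  · rfl
  · rintro ⟨a, b⟩ ⟨a', b'⟩ h
    simp only [mk, Subtype.mk.injEq, Vx.m.injEq, List.cons.injEq, and_true] at h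
    obtain ⟨rfl, rfl⟩ := h
    rfl

lemma ch_card_h (τ : Bool) (v : List Bool) (h : Valid n (.h τ v)) :
    (ch n ⟨.h τ v, h⟩).card = 8 := by
  rw [ch_h]
  unfold chh
  split_ifs with hl
  · rw [Finset.card_image_of_injective]
    · rfl
    · rintro ⟨a, b, c⟩ ⟨a', b', c'⟩ h
      simp only [hb, Subtype.mk.injEq, Vx.h.injEq, List.cons.injEq, and_true, true_and] at h
      obtain ⟨rfl, rfl, rfl⟩ := h
      rfl
  · rw [Finset.card_image_of_injective]
    · rfl
    · rintro ⟨a, b, c⟩ ⟨a', b', c'⟩ h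
      simp only [mk, Subtype.mk.injEq, Vx.m.injEq, List.cons.injEq, and_true] at h
      obtain ⟨⟨rfl, rfl⟩, rfl⟩ := h
      rfl

lemma balance (x : Vt n) : 6 + ∑ y ∈ pa x.1, wt y ≤ wt x.1 * (ch n x).card := by
  rcases x with ⟨⟨w, c⟩ | ⟨τ, v⟩, hx⟩
  · rw [ch_card_m]
    have : ∑ y ∈ pa (.m w c), wt y ≤ 10 := by
      unfold pa
      rw [Finset.sum_insert, Finset.sum_insert, Finset.sum_insert, Finset.sum_singleton]
      · simp [wt]
      all_goals simp
    change 6 + ∑ y ∈ pa (.m w c), wt y ≤ 4 * 4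
    omega
  · rw [ch_card_h]
    simp [pa, wt]

/-- degree bound -/
lemma degree_le (x : Vt n) : ((G n).neighborSet x).encard ≤ 9 := by
  have h1 : (G n).neighborSet x ⊆ ↑(ch n x) ∪ {y | y.1 ∈ pa x.1} := by
    intro y hy
    rcases hy with hy | hy
    · left; exact ch_of_R n x y hy
    · right; exact mem_pa n _ _ hy
  refine le_trans (Set.encard_le_encard h1) (le_trans (Set.encard_union_le _ _) ?_)
  have h2 : ({y : Vt n | y.1 ∈ pa x.1}).encard ≤ (pa x.1).card := by
    rw [← Set.encard_coe_eq_coe_finsetCard]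
    exact Set.encard_le_encard_of_injOn (f := Subtype.val) (fun y hy => hy)
      (fun a _ b _ h => Subtype.ext h)
  rw [Set.encard_coe_eq_coe_finsetCard]
  have h3 : (ch n x).card + (pa x.1).card ≤ 9 := by
    rcases x with ⟨⟨w, c⟩ | ⟨τ, v⟩, hx⟩
    · rw [ch_card_m]
      have : (pa (.m w c)).card ≤ 4 := by
        unfold pa
        exact Finset.card_le_four
      simp only
      omega
    · rw [ch_card_h]
      simp [pa]
  calc ((ch n x).card : ℕ∞) + _ ≤ ((ch n x).card : ℕ∞) + ((pa x.1).card : ℕ∞) := by gcongr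
    _ ≤ 9 := by exact_mod_cast h3

end Pool.Agent.Helper78.Net
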