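import Pool.Agent.Helper78.Net.Hub

set_option autoImplicit false

open Finset

namespace Pool.Agent.Helper78.Net

variable (n : Bool → ℕ)

lemma inner_bound (A : Finset (Vt n)) (y : Vt n) :
    ∑ x ∈ A, (if y ∈ ch n x then wt x.1 else 0) ≤ ∑ z ∈ pa y.1, wt z := by
  rw [← Finset.sum_filter]
  have h1 : ∑ x ∈ A.filter (fun x => y ∈ ch n x), wt x.1
      = ∑ z ∈ (A.filter (fun x => y ∈ ch n x)).map (Function.Embedding.subtype _), wt z := by
    rw [Finset.sum_map]
    rfl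
  rw [h1]
  apply Finset.sum_le_sum_of_subset
  intro z hz
  rw [Finset.mem_map] at hz
  obtain ⟨x, hx, rfl⟩ := hz
  rw [Finset.mem_filter] at hx
  exact mem_pa n _ _ (mem_ch n _ _ hx.2)

lemma boundary_G (A : Finset (Vt n)) :
    ((6 * A.card : ℕ) : ℕ∞) ≤ 4 * (edgeBoundary (G n) A).encard := by
  have hflow := flow (G n) A (ch n) (fun x _ y hy => Or.inl (mem_ch n x y hy))
  have h1 : ∑ x ∈ A, (6 + ∑ y ∈ pa x.1, wt y) ≤ ∑ x ∈ A, wt x.1 * (ch n x).card :=
    Finset.sum_le_sum (fun x _ => balance n x)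
  have h2 : ∑ x ∈ A, wt x.1 * (ch n x).card
      = ∑ x ∈ A, wt x.1 * (ch n x \ A).card + ∑ x ∈ A, wt x.1 * (ch n x ∩ A).card := by
    rw [← Finset.sum_add_distrib]
    refine Finset.sum_congr rfl (fun x _ => ?_)
    rw [← mul_add, Finset.card_sdiff_add_card_inter]
  have h3 : ∑ x ∈ A, wt x.1 * (ch n x ∩ A).card ≤ ∑ y ∈ A, ∑ z ∈ pa y.1, wt z := by
    have e : ∀ x, wt x.1 * (ch n x ∩ A).card = ∑ y ∈ A, if y ∈ ch n x then wt x.1 else 0 := by
      intro x
      rw [Finset.inter_comm, ← Finset.filter_mem_eq_inter, ← Finset.sum_filter, Finset.sum_const,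
        smul_eq_mul, mul_comm]
    simp only [e]
    rw [Finset.sum_comm]
    exact Finset.sum_le_sum (fun y _ => inner_bound n A y)
  have h4 : ∑ x ∈ A, wt x.1 * (ch n x \ A).card ≤ 4 * ∑ x ∈ A, (ch n x \ A).card := by
    rw [Finset.mul_sum]
    refine Finset.sum_le_sum (fun x _ => Nat.mul_le_mul_right _ ?_)
    rcases x with ⟨⟨w, c⟩ | ⟨τ, v⟩, hx⟩ <;> simp [wt]
  rw [Finset.sum_add_distrib, Finset.sum_const, smul_eq_mul] at h1
  have h5 : 6 * A.card ≤ 4 * ∑ x ∈ A, (ch n x \ A).card := by omega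
  calc ((6 * A.card : ℕ) : ℕ∞) ≤ ((4 * ∑ x ∈ A, (ch n x \ A).card : ℕ) : ℕ∞) := by
        exact_mod_cast h5
    _ = 4 * ((∑ x ∈ A, (ch n x \ A).card : ℕ) : ℕ∞) := by push_cast; rfl
    _ ≤ _ := by gcongr

lemma one_lt_cheeger_G : 1 < cheeger (G n) := by
  have h : (3/2 : ENNReal) ≤ cheeger (G n) := by
    apply le_cheeger
    intro A _
    have h1 := boundary_G n A
    have h2 : (((6 * A.card : ℕ) : ℕ∞) : ENNReal)
        ≤ ((4 * (edgeBoundary (G n) A).encard : ℕ∞) : ENNReal) := by exact_mod_cast h1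
    have h3 : (6 : ENNReal) * (A.card : ENNReal)
        ≤ 4 * ((edgeBoundary (G n) A).encard : ENNReal) := by
      simpa using h2
    have h4 : (4 : ENNReal) * (3/2 * (A.card : ENNReal)) ≤ 4 * ((edgeBoundary (G n) A).encard : ENNReal) := by
      have : (4 : ENNReal) * (3/2) = 6 := by
        rw [← ENNReal.toReal_eq_toReal_iff']
        · simp; norm_num
        · exact ENNReal.mul_ne_top (by norm_num) (ENNReal.div_ne_top (by norm_num) (by norm_num))
        · norm_num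
      rw [← mul_assoc, this]
      exact h3
    exact (ENNReal.mul_le_mul_iff_right (by norm_num) (by norm_num)).mp h4
  refine lt_of_lt_of_le ?_ h
  rw [ENNReal.lt_div_iff_mul_lt] <;> norm_num

end Pool.Agent.Helper78.Net
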