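import Pool.Agent.Helper78.Net.HubCheeger

set_option autoImplicit false

open Finset

namespace Pool.Agent.Helper78.Net

variable (n : Bool → ℕ)

lemma adj_cons (e : Bool) (w : List Bool) (c c' : Bool) :
    (G n).Adj (mk n w c) (mk n (e :: w) c') := Or.inl ⟨e, rfl⟩

lemma reach_main (w : List Bool) (c : Bool) : (G n).Reachable (mk n [] false) (mk n w c) := by
  induction w generalizing c with
  | nil =>
    have h1 := (adj_cons n false [] false false).reachable
    have h2 := (adj_cons n false [] c false).reachable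
    exact h1.trans h2.symm
  | cons e w ih => exact (ih false).trans (adj_cons n e w false c).reachable

lemma reach_hub (j : ℕ) : ∀ (τ : Bool) (v : List Bool) (hv : 3 ∣ v.length ∧ v.length < 3 * n τ),
    v.length + 3 * j + 3 = 3 * n τ → (G n).Reachable (mk n [] false) (hb n τ v hv) := by
  induction j with
  | zero =>
    intro τ v hv h
    have h1 : (G n).Adj (hb n τ v hv) (mk n (false :: false :: v) false) :=
      Or.inl ⟨by omega, _, _, rfl⟩
    exact (reach_main n _ _).trans h1.symm.reachable
  | succ j ih =>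
    intro τ v hv h
    have hv' : 3 ∣ (false :: false :: false :: v).length ∧
        (false :: false :: false :: v).length < 3 * n τ := by
      constructor
      · simpa using hv.1
      · simp only [List.length_cons]; omega
    have h1 : (G n).Adj (hb n τ v hv) (hb n τ _ hv') := Or.inl ⟨rfl, _, _, _, rfl⟩
    refine (ih τ _ hv' ?_).trans h1.symm.reachable
    simp only [List.length_cons]; omega

lemma connected_G : (G n).Connected := by
  have h : ∀ x : Vt n, (G n).Reachable (mk n [] false) x := by
    rintro ⟨⟨w, c⟩ | ⟨τ, v⟩, hx⟩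
    · exact reach_main n w c
    · obtain ⟨h1, h2⟩ := id hx
      obtain ⟨a, ha⟩ := h1
      exact reach_hub n (n τ - 1 - a) τ v hx (by omega)
  exact { preconnected := fun x y => (h x).symm.trans (h y), nonempty := ⟨mk n [] false⟩ }

instance infinite_Vt : Infinite (Vt n) := by
  apply Infinite.of_injective (fun j : ℕ => mk n (List.replicate j false) false)
  intro a b h
  have := congrArg (fun x : Vt n => x.1) h
  simp only [mk, Vx.m.injEq, and_true] at this
  simpa using congrArg List.length this

lemma dist_drop (w : List Bool) (c c' : Bool) (j : ℕ) (hj : 1 ≤ j) (hjw : j ≤ w.length) :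
    (G n).dist (mk n w c) (mk n (w.drop j) c') ≤ j := by
  induction w generalizing c j with
  | nil => simp at hjw; omega
  | cons e w ih =>
    rcases j with _ | j
    · omega
    · rw [List.drop_succ_cons]
      have h1 : ∀ c'', (G n).dist (mk n (e :: w) c) (mk n w c'') = 1 := fun c'' => by
        rw [SimpleGraph.dist_comm, SimpleGraph.dist_eq_one_iff_adj]
        exact adj_cons n e w c'' c
      rcases Nat.eq_zero_or_pos j with rfl | hj'
      · rw [List.drop_zero, h1]
      · have h2 := ih false j hj' (by simpa using hjw)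
        have h3 := (connected_G n).dist_triangle (u := mk n (e :: w) c) (v := mk n w false)
          (w := mk n (w.drop j) c')
        rw [h1] at h3
        omega

lemma root_valid (τ : Bool) (h : 0 < n τ) : 3 ∣ ([] : List Bool).length ∧
    ([] : List Bool).length < 3 * n τ := by
  simp; exact h

lemma dist_hub (j : ℕ) : ∀ (τ : Bool) (v : List Bool) (hv : 3 ∣ v.length ∧ v.length < 3 * n τ)
    (h0 : 0 < n τ), v.length = 3 * j →
    (G n).dist (hb n τ v hv) (hb n τ [] (root_valid n τ h0)) ≤ j := by
  induction j with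
  | zero =>
    intro τ v hv h0 h
    have : v = [] := List.eq_nil_of_length_eq_zero (by omega)
    subst this
    simp
  | succ j ih =>
    intro τ v hv h0 h
    match v, hv, h with
    | a :: b :: c :: v', hv, h =>
      have hv' : 3 ∣ v'.length ∧ v'.length < 3 * n τ := by
        simp only [List.length_cons] at hv h
        constructor <;> omega
      have h1 : (G n).dist (hb n τ (a :: b :: c :: v') hv) (hb n τ v' hv') = 1 := by
        rw [SimpleGraph.dist_comm, SimpleGraph.dist_eq_one_iff_adj]
        exact Or.inl ⟨rfl, _, _, _, rfl⟩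
      have h2 := ih τ v' hv' h0 (by simp only [List.length_cons] at h; omega)
      have h3 := (connected_G n).dist_triangle (u := hb n τ (a :: b :: c :: v') hv)
        (v := hb n τ v' hv') (w := hb n τ [] (root_valid n τ h0))
      omega
    | [], _, h => simp at h
    | [_], _, h => simp at h; omega
    | [_, _], _, h => simp at h; omega

lemma dist_leaf (τ : Bool) (w : List Bool) (c : Bool) (h0 : 0 < n τ)
    (hw : w.length + 1 = 3 * n τ) :
    (G n).dist (mk n w c) (hb n τ [] (root_valid n τ h0)) ≤ n τ := by
  match w, hw with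
  | a :: b :: v, hw =>
    have hv : 3 ∣ v.length ∧ v.length < 3 * n τ := by
      simp only [List.length_cons] at hw
      constructor <;> omega
    have h1 : (G n).dist (mk n (a :: b :: v) c) (hb n τ v hv) = 1 := by
      rw [SimpleGraph.dist_comm, SimpleGraph.dist_eq_one_iff_adj]
      refine Or.inl ⟨?_, _, _, rfl⟩
      simp only [List.length_cons] at hw
      omega
    have h2 := dist_hub n (n τ - 1) τ v hv h0 (by simp only [List.length_cons] at hw; omega)
    have h3 := (connected_G n).dist_triangle (u := mk n (a :: b :: v) c)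
      (v := hb n τ v hv) (w := hb n τ [] (root_valid n τ h0))
    omega
  | [], hw => simp at hw; omega
  | [_], hw => simp at hw; omega

/-- the hub root covers the levels around `3 n τ - 1`. -/
lemma dist_up (τ : Bool) (w : List Bool) (c : Bool) (h0 : 0 < n τ)
    (hw : w.length ≤ 3 * n τ - 1) :
    (G n).dist (mk n w c) (hb n τ [] (root_valid n τ h0)) ≤ (3 * n τ - 1 - w.length) + n τ := by
  rcases Nat.eq_zero_or_pos (3 * n τ - 1 - w.length) with h | h
  · rw [h, zero_add]
    exact dist_leaf n τ w c h0 (by omega)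
  · set j := 3 * n τ - 1 - w.length with hj
    have h1 := dist_drop n (List.replicate j false ++ w) false c j h (by simp)
    rw [List.drop_left' (by simp)] at h1
    have h2 := dist_leaf n τ (List.replicate j false ++ w) false h0 (by simp; omega)
    rw [SimpleGraph.dist_comm] at h1
    have h3 := (connected_G n).dist_triangle (u := mk n w c)
      (v := mk n (List.replicate j false ++ w) false) (w := hb n τ [] (root_valid n τ h0))
    omega

lemma dist_down (τ : Bool) (w : List Bool) (c : Bool) (h0 : 0 < n τ)
    (hw : 3 * n τ - 1 ≤ w.length) :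
    (G n).dist (mk n w c) (hb n τ [] (root_valid n τ h0)) ≤ (w.length - (3 * n τ - 1)) + n τ := by
  rcases Nat.eq_zero_or_pos (w.length - (3 * n τ - 1)) with h | h
  · rw [h, zero_add]
    exact dist_leaf n τ w c h0 (by omega)
  · set j := w.length - (3 * n τ - 1) with hj
    have h1 := dist_drop n w c false j h (by omega)
    have h2 := dist_leaf n τ (w.drop j) false h0 (by rw [List.length_drop]; omega)
    have h3 := (connected_G n).dist_triangle (u := mk n w c)
      (v := mk n (w.drop j) false) (w := hb n τ [] (root_valid n τ h0))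
    omega

/-- Lipschitz functions bound the distance from below -/
lemma lip (φ : Vt n → ℤ) (hφ : ∀ x y : Vt n, R n x.1 y.1 → |φ x - φ y| ≤ 1) (x y : Vt n) :
    |φ x - φ y| ≤ (G n).dist x y := by
  obtain ⟨p, hp⟩ := (connected_G n).exists_walk_length_eq_dist x y
  rw [← hp]
  clear hp
  induction p with
  | nil => simp
  | cons hadj q ih =>
    rename_i a b c
    rw [SimpleGraph.Walk.length_cons]
    have h1 : |φ a - φ b| ≤ 1 := by
      rcases hadj with h | h
      · exact hφ _ _ h
      · rw [abs_sub_comm]; exact hφ _ _ h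
    have h2 : |φ a - φ c| ≤ |φ a - φ b| + |φ b - φ c| := by
      have := abs_add_le (φ a - φ b) (φ b - φ c)
      simpa using this
    push_cast
    linarith

/-- level function -/
def Phi (σ : Bool → ℤ) : Vt n → ℤ
  | ⟨.m w _, _⟩ => w.length
  | ⟨.h τ v, _⟩ => (3 * n τ - 1) + σ τ * (n τ - (v.length / 3 : ℕ))

lemma Phi_lip (σ : Bool → ℤ) (hσ : ∀ τ, |σ τ| ≤ 1) (x y : Vt n) (h : R n x.1 y.1) :
    |Phi n σ x - Phi n σ y| ≤ 1 := by
  rcases x with ⟨⟨w, c⟩ | ⟨τ, v⟩, hx⟩ <;> rcases y with ⟨⟨w', c'⟩ | ⟨τ', v'⟩, hy⟩
  · obtain ⟨e, rfl⟩ := h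
    simp [Phi]
  · exact h.elim
  · obtain ⟨h1, a, b, rfl⟩ := h
    have h2 : (v.length / 3 : ℕ) + 1 = n τ := by omega
    have h3 : ((v.length / 3 : ℕ) : ℤ) + 1 = n τ := by exact_mod_cast h2
    have h4 : ((v.length : ℕ) : ℤ) + 3 = 3 * n τ := by exact_mod_cast h1
    simp only [Phi]
    have h5 : ((n τ : ℤ) - (v.length / 3 : ℕ)) = 1 := by linarith
    rw [h5]
    have h6 : (((a :: b :: v).length : ℕ) : ℤ) = 3 * n τ - 1 := by
      simp only [List.length_cons]; push_cast; linarith
    rw [h6]
    have := hσ τ
    simpa using this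
  · obtain ⟨rfl, a, b, c, rfl⟩ := h
    have h2 : ((a :: b :: c :: v).length / 3 : ℕ) = v.length / 3 + 1 := by
      simp only [List.length_cons]; omega
    simp only [Phi, h2]
    have := hσ τ
    have h3 : (3 * (n τ : ℤ) - 1 + σ τ * ((n τ : ℤ) - (v.length / 3 : ℕ)) -
        (3 * (n τ : ℤ) - 1 + σ τ * ((n τ : ℤ) - ((v.length / 3 + 1 : ℕ) : ℤ)))) = σ τ := by
      push_cast; ring
    rw [h3]
    exact this

lemma dist_Phi (σ : Bool → ℤ) (hσ : ∀ τ, |σ τ| ≤ 1) (x y : Vt n) :
    |Phi n σ x - Phi n σ y| ≤ (G n).dist x y := lip n _ (Phi_lip n σ hσ) x y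

/-- separating function for two different subtrees -/
def Psi (t : ℕ) (g : ℕ → ℤ) (z z' : List Bool) : Vt n → ℤ
  | ⟨.m w _, _⟩ => if t ≤ w.length then
      (if w.drop (w.length - t) = z then g w.length else
        if w.drop (w.length - t) = z' then - g w.length else 0) else 0
  | ⟨.h _ _, _⟩ => 0

lemma Psi_lip (t : ℕ) (g : ℕ → ℤ) (z z' : List Bool) (ht : |g t| ≤ 1)
    (hg : ∀ l, t ≤ l → |g l - g (l+1)| ≤ 1) (hτ : ∀ τ, t + 1 ≤ 3 * n τ → |g (3 * n τ - 1)| ≤ 1)
    (x y : Vt n) (h : R n x.1 y.1) :
    |Psi n t g z z' x - Psi n t g z z' y| ≤ 1 := by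
  rcases x with ⟨⟨w, c⟩ | ⟨τ, v⟩, hx⟩ <;> rcases y with ⟨⟨w', c'⟩ | ⟨τ', v'⟩, hy⟩
  · obtain ⟨e, rfl⟩ := h
    simp only [Psi, List.length_cons]
    rcases Nat.lt_or_ge w.length t with h1 | h1
    · rw [if_neg (not_le.mpr h1)]
      rcases Nat.lt_or_ge (w.length + 1) t with h2 | h2
      · rw [if_neg (not_le.mpr h2)]; simp
      · rw [if_pos h2]
        have : w.length + 1 = t := by omega
        rw [this]
        split_ifs <;> simp [abs_neg] <;> exact ht
    · rw [if_pos h1, if_pos (show t ≤ w.length + 1 by omega)]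
      have h3 : (e :: w).drop (w.length + 1 - t) = w.drop (w.length - t) := by
        rw [show w.length + 1 - t = (w.length - t) + 1 by omega, List.drop_succ_cons]
      rw [h3]
      have h4 := hg w.length h1
      split_ifs
      · exact h4
      · have : -g w.length - -g (w.length + 1) = -(g w.length - g (w.length + 1)) := by ring
        rw [this, abs_neg]
        exact h4
      · simp
  · exact h.elim
  · obtain ⟨h1, a, b, rfl⟩ := h
    simp only [Psi]
    have h2 : (a :: b :: v).length = 3 * n τ - 1 := by
      simp only [List.length_cons]; omega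
    rw [h2]
    split_ifs with h3
    · have := hτ τ (by omega)
      simpa using this
    · have := hτ τ (by omega)
      simpa using this
    · simp
    · simp
  · simp [Psi]

lemma dist_Psi (t : ℕ) (g : ℕ → ℤ) (z z' : List Bool) (ht : |g t| ≤ 1)
    (hg : ∀ l, t ≤ l → |g l - g (l+1)| ≤ 1) (hτ : ∀ τ, t + 1 ≤ 3 * n τ → |g (3 * n τ - 1)| ≤ 1)
    (x y : Vt n) :
    |Psi n t g z z' x - Psi n t g z z' y| ≤ (G n).dist x y :=
  lip n _ (Psi_lip n t g z z' ht hg hτ) x y

end Pool.Agent.Helper78.Net
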