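import Pool.Agent.Helper78.Net.HubNet

set_option autoImplicit false

open Finset

namespace Pool.Agent.Helper78.Net

lemma far (q k : ℕ) (σ : Bool → ℤ) (hσ : ∀ τ, |σ τ| ≤ 1) (x y : Vt (nn q))
    (h : (k : ℤ) < Phi (nn q) σ y - Phi (nn q) σ x) : k < (G (nn q)).dist x y := by
  have h1 := dist_Phi (nn q) σ hσ x y
  rw [abs_sub_comm] at h1
  have h2 := h.trans_le ((le_abs_self _).trans h1)
  exact_mod_cast h2

lemma Phi_mk (q : ℕ) (σ : Bool → ℤ) (w : List Bool) (c : Bool) :
    Phi (nn q) σ (mk (nn q) w c) = w.length := rfl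

theorem hub_net (q : ℕ) : ∃ S : Set (Vt (nn q)), IsNet (G (nn q)) (8 * q + 24) S ∧
    cheeger (netGraph (G (nn q)) (8 * q + 24) S) ≤ (2⁻¹ : ENNReal) ^ q := by
  classical
  obtain ⟨S, hS0, hS⟩ := exists_net (G (nn q)) (8 * q + 24) (S0 q) (S0_sep q)
  refine ⟨S, hS, ?_⟩
  have hzone : ∀ s ∈ S, (∃ w c, s = mk (nn q) w c ∧ w.length ≤ 8 * q + 11) ∨ (∃ τ, s = rt q τ) ∨
      (∃ w c, s = mk (nn q) w c ∧ 24 * q + 66 ≤ w.length) := by
    intro s hs
    rcases cover_S0 q s with h | h | h | ⟨y, hy, hne, hlt⟩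
    · exact Or.inl h
    · exact Or.inr (Or.inl h)
    · exact Or.inr (Or.inr h)
    · exfalso
      have := hS.1 s hs y (hS0 hy) hne.symm
      omega
  set B : Set S := {s | (∃ w c, s.1 = mk (nn q) w c ∧ w.length ≤ 8 * q + 11) ∨ s.1 = rt q false}
    with hB
  have hfin : B.Finite := by
    have h1 : ({p : List Bool | p.length ≤ 8 * q + 11}).Finite := List.finite_length_le Bool _
    have h2 : (((fun p : List Bool × Bool => mk (nn q) p.1 p.2) ''
        ({p : List Bool | p.length ≤ 8 * q + 11} ×ˢ (Set.univ : Set Bool)))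
          ∪ {rt q false}).Finite :=
      ((h1.prod Set.finite_univ).image _).union (Set.finite_singleton _)
    refine Set.Finite.of_finite_image (f := Subtype.val) (h2.subset ?_)
      (fun a _ b _ h => Subtype.ext h)
    rintro x ⟨s, hs, rfl⟩
    rcases hs with ⟨w, c, h, hl⟩ | h
    · left; exact ⟨(w, c), ⟨hl, Set.mem_univ _⟩, h.symm⟩
    · right; exact h
  set A : Finset S := hfin.toFinset with hA
  have hmemA : ∀ s : S, s ∈ A ↔ s ∈ B := fun s => Set.Finite.mem_toFinset hfin
  -- cardinality
  have hcard : 2 ^ (4 * q) ≤ A.card := by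
    have hpt : ∀ f : Fin (4 * q) → Bool, pt q (List.ofFn f) ∈ S := fun f =>
      hS0 (Or.inr (Or.inl ⟨_, by simp, rfl⟩))
    let F : (Fin (4 * q) → Bool) → S := fun f => ⟨pt q (List.ofFn f), hpt f⟩
    have hF : Function.Injective F := by
      intro f g h
      have h1 := congrArg (fun s : S => s.1.1) h
      simp only [F, pt, mk, Vx.m.injEq, List.append_cancel_left_eq, and_true] at h1
      exact List.ofFn_injective h1
    have hsub : (Finset.univ.image F) ⊆ A := by
      intro s hs
      rw [Finset.mem_image] at hs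
      obtain ⟨f, -, rfl⟩ := hs
      rw [hmemA]
      left
      exact ⟨_, _, rfl, by simp; omega⟩
    calc 2 ^ (4 * q) = (Finset.univ.image F).card := by
          rw [Finset.card_image_of_injective _ hF]; simp
      _ ≤ A.card := Finset.card_le_card hsub
  have hApos : 0 < A.card := lt_of_lt_of_le (by positivity) hcard
  have hAne : A.Nonempty := Finset.card_pos.mp hApos
  -- the boundary has at most one edge
  have hr0 : rt q false ∈ S := hS0 (Or.inl ⟨false, rfl⟩)
  have hr1 : rt q true ∈ S := hS0 (Or.inl ⟨true, rfl⟩)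
  have hbd : edgeBoundary (netGraph (G (nn q)) (8 * q + 24) S) A ⊆
      {s(⟨rt q false, hr0⟩, ⟨rt q true, hr1⟩)} := by
    rintro e ⟨he, x, hx, y, hy, rfl⟩
    rw [SimpleGraph.mem_edgeSet] at he
    have hd : (G (nn q)).dist (x : Vt (nn q)) (y : Vt (nn q)) ≤ 2 * (8 * q + 24) := he.2
    rw [hmemA] at hx hy
    rcases x with ⟨x, hxS⟩
    rcases y with ⟨y, hyS⟩
    simp only at hd
    have hy' : y = rt q true ∨ (∃ w c, y = mk (nn q) w c ∧ 24 * q + 66 ≤ w.length) := by
      rcases hzone y hyS with h | ⟨τ, h⟩ | h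
      · exact absurd (Or.inl h) hy
      · cases τ
        · exact absurd (Or.inr h) hy
        · exact Or.inl h
      · exact Or.inr h
    rcases hx with ⟨w, c, hx, hl⟩ | hx
    · simp only at hx
      subst hx
      rcases hy' with rfl | ⟨w', c', rfl, hl'⟩
      · exfalso
        have := far q (2 * (8 * q + 24)) (fun _ => 1) (by intro τ; simp) (mk (nn q) w c)
          (rt q true) (by rw [Phi_rt, Phi_mk]; simp only [nn]; push_cast; omega)
        omega
      · exfalso
        have := far q (2 * (8 * q + 24)) (fun _ => 0) (by intro τ; simp) (mk (nn q) w c)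
          (mk (nn q) w' c') (by rw [Phi_mk, Phi_mk]; push_cast; omega)
        omega
    · simp only at hx
      subst hx
      rcases hy' with rfl | ⟨w', c', rfl, hl'⟩
      · rfl
      · exfalso
        have := far q (2 * (8 * q + 24)) (fun _ => -1) (by intro τ; simp) (rt q false)
          (mk (nn q) w' c') (by rw [Phi_rt, Phi_mk]; simp only [nn]; push_cast; omega)
        omega
  refine le_trans (cheeger_le _ A hAne) ?_
  have h1 : ((edgeBoundary (netGraph (G (nn q)) (8 * q + 24) S) A).encard : ENNReal) ≤ 1 := by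
    have h2 : (edgeBoundary (netGraph (G (nn q)) (8 * q + 24) S) A).encard ≤ 1 := by
      refine le_trans (Set.encard_le_encard hbd) ?_
      rw [Set.encard_singleton]
    exact_mod_cast h2
  calc ((edgeBoundary (netGraph (G (nn q)) (8 * q + 24) S) A).encard : ENNReal) / (A.card : ENNReal)
      ≤ 1 / (A.card : ENNReal) := by gcongr
    _ ≤ 1 / ((2 : ENNReal) ^ q) := by
        gcongr
        have : 2 ^ q ≤ A.card := le_trans (Nat.pow_le_pow_right (by norm_num) (by omega)) hcard
        exact_mod_cast this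
    _ = (2⁻¹ : ENNReal) ^ q := by rw [one_div, ENNReal.inv_pow]

end Pool.Agent.Helper78.Net
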