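import Pool.Agent.Helper78.Net.HubDist

set_option autoImplicit false

open Finset

namespace Pool.Agent.Helper78.Net

/-- depths of the two hub trees -/
def nn (q : ℕ) : Bool → ℕ
  | false => 4 * q + 9
  | true => 6 * q + 16

lemma nn_pos (q : ℕ) (τ : Bool) : 0 < nn q τ := by cases τ <;> simp [nn]

/-- hub roots -/
def rt (q : ℕ) (τ : Bool) : Vt (nn q) := hb (nn q) τ [] (root_valid (nn q) τ (nn_pos q τ))

/-- special points of the net -/
def pt (q : ℕ) (z : List Bool) : Vt (nn q) := mk (nn q) (List.replicate (4*q+11) false ++ z) false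

/-- the prescribed part of the net -/
def S0 (q : ℕ) : Set (Vt (nn q)) :=
  {x | (∃ τ, x = rt q τ) ∨ (∃ z, z.length = 4 * q ∧ x = pt q z) ∨
    (∃ z, z.length = 24 * q + 65 ∧ x = pt q z)}

lemma Phi_rt (q : ℕ) (σ : Bool → ℤ) (τ : Bool) :
    Phi (nn q) σ (rt q τ) = (3 * nn q τ - 1) + σ τ * nn q τ := by
  simp [Phi, rt, hb]

lemma Phi_pt (q : ℕ) (σ : Bool → ℤ) (z : List Bool) :
    Phi (nn q) σ (pt q z) = 4 * q + 11 + z.length := by
  simp [Phi, pt, mk]

lemma sep_Phi (q k : ℕ) (σ : Bool → ℤ) (hσ : ∀ τ, |σ τ| ≤ 1) (x y : Vt (nn q))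
    (h : (k : ℤ) ≤ |Phi (nn q) σ x - Phi (nn q) σ y|) : k ≤ (G (nn q)).dist x y := by
  have := dist_Phi (nn q) σ hσ x y
  exact_mod_cast h.trans this

lemma sep_rt_rt (q : ℕ) : 8 * q + 24 ≤ (G (nn q)).dist (rt q false) (rt q true) := by
  apply sep_Phi q _ (fun τ => if τ then 1 else -1) (by intro τ; cases τ <;> simp)
  rw [Phi_rt, Phi_rt, abs_sub_comm]
  refine le_trans ?_ (le_abs_self _)
  simp [nn]
  ring_nf
  omega

lemma sep_rt_pt (q : ℕ) (τ : Bool) (z : List Bool)
    (hz : z.length = 4 * q ∨ z.length = 24 * q + 65) :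
    8 * q + 24 ≤ (G (nn q)).dist (rt q τ) (pt q z) := by
  rcases hz with hz | hz
  · apply sep_Phi q _ (fun _ => 1) (by intro τ; simp)
    rw [Phi_rt, Phi_pt, hz]
    refine le_trans ?_ (le_abs_self _)
    cases τ <;> simp [nn] <;> ring_nf <;> omega
  · apply sep_Phi q _ (fun _ => -1) (by intro τ; simp)
    rw [Phi_rt, Phi_pt, hz, abs_sub_comm]
    refine le_trans ?_ (le_abs_self _)
    cases τ <;> simp [nn] <;> ring_nf <;> omega

lemma sep_pt_pt (q : ℕ) (z z' : List Bool) (hz : z.length = 4 * q)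
    (hz' : z'.length = 24 * q + 65) : 8 * q + 24 ≤ (G (nn q)).dist (pt q z) (pt q z') := by
  apply sep_Phi q _ (fun _ => 0) (by intro τ; simp)
  rw [Phi_pt, Phi_pt, hz, hz', abs_sub_comm]
  refine le_trans ?_ (le_abs_self _)
  push_cast
  ring_nf
  omega

lemma Psi_pt_left (q t : ℕ) (g : ℕ → ℤ) (z z' : List Bool) (hz : z.length = t) :
    Psi (nn q) t g z z' (pt q z) = g (4 * q + 11 + t) := by
  have h1 : (List.replicate (4*q+11) false ++ z).drop (4*q+11) = z := List.drop_left' (by simp)
  simp only [Psi, pt, mk, List.length_append, List.length_replicate, hz]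
  rw [if_pos (by omega), show 4 * q + 11 + t - t = 4*q+11 by omega, h1, if_pos rfl]

lemma Psi_pt_right (q t : ℕ) (g : ℕ → ℤ) (z z' : List Bool) (hz' : z'.length = t) (hne : z ≠ z') :
    Psi (nn q) t g z z' (pt q z') = - g (4 * q + 11 + t) := by
  have h1 : (List.replicate (4*q+11) false ++ z').drop (4*q+11) = z' := List.drop_left' (by simp)
  simp only [Psi, pt, mk, List.length_append, List.length_replicate, hz']
  rw [if_pos (by omega), show 4 * q + 11 + t - t = 4*q+11 by omega, h1, if_neg hne.symm, if_pos rfl]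

lemma sep_Psi (q t : ℕ) (g : ℕ → ℤ) (z z' : List Bool) (hz : z.length = t) (hz' : z'.length = t)
    (hne : z ≠ z') (ht : |g t| ≤ 1) (hg : ∀ l, t ≤ l → |g l - g (l+1)| ≤ 1)
    (hτ : ∀ τ, t + 1 ≤ 3 * nn q τ → |g (3 * nn q τ - 1)| ≤ 1)
    (hv : 4 * (q:ℤ) + 12 ≤ g (4 * q + 11 + t)) :
    8 * q + 24 ≤ (G (nn q)).dist (pt q z) (pt q z') := by
  have h := dist_Psi (nn q) t g z z' ht hg hτ (pt q z) (pt q z')
  rw [Psi_pt_left q t g z z' hz, Psi_pt_right q t g z z' hz' hne] at h
  have h2 := le_trans (le_abs_self _) h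
  have h3 : ((8 * q + 24 : ℕ) : ℤ) ≤ ((G (nn q)).dist (pt q z) (pt q z') : ℤ) := by
    push_cast
    linarith
  exact_mod_cast h3

lemma sep_low (q : ℕ) (z z' : List Bool) (hz : z.length = 4 * q) (hz' : z'.length = 4 * q)
    (hne : z ≠ z') : 8 * q + 24 ≤ (G (nn q)).dist (pt q z) (pt q z') := by
  apply sep_Psi q (4 * q) (fun l => max 0 (min ((l:ℤ) - 4 * q + 1) (12 * q + 26 - l))) z z' hz hz' hne
  · push_cast
    rw [abs_le]; constructor <;> simp only [max_def, min_def] <;> split_ifs <;> omega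
  · intro l hl
    push_cast
    rw [abs_le]; constructor <;> simp only [max_def, min_def] <;> split_ifs <;> omega
  · intro τ hτ
    have h1 : ((3 * nn q τ - 1 : ℕ) : ℤ) = 3 * (nn q τ : ℤ) - 1 := by
      have := nn_pos q τ
      omega
    rw [h1]
    cases τ <;> simp only [nn] <;> push_cast <;> rw [abs_le] <;> constructor <;>
      simp only [max_def, min_def] <;> split_ifs <;> omega
  · push_cast
    simp only [max_def, min_def]; split_ifs <;> omega

lemma sep_high (q : ℕ) (z z' : List Bool) (hz : z.length = 24 * q + 65)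
    (hz' : z'.length = 24 * q + 65) (hne : z ≠ z') :
    8 * q + 24 ≤ (G (nn q)).dist (pt q z) (pt q z') := by
  apply sep_Psi q (24 * q + 65) (fun l => (l:ℤ) - (24 * q + 65) + 1) z z' hz hz' hne
  · push_cast
    rw [abs_le]; constructor <;> omega
  · intro l hl
    push_cast
    rw [abs_le]; constructor <;> omega
  · intro τ hτ
    exfalso
    cases τ <;> simp only [nn] at hτ <;> omega
  · push_cast
    omega

lemma S0_sep (q : ℕ) : ∀ x ∈ S0 q, ∀ y ∈ S0 q, x ≠ y → 8 * q + 24 ≤ (G (nn q)).dist x y := by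
  intro x hx y hy hne
  rcases hx with ⟨τ, rfl⟩ | ⟨z, hz, rfl⟩ | ⟨z, hz, rfl⟩ <;>
    rcases hy with ⟨τ', rfl⟩ | ⟨z', hz', rfl⟩ | ⟨z', hz', rfl⟩
  · cases τ <;> cases τ'
    · exact absurd rfl hne
    · exact sep_rt_rt q
    · rw [SimpleGraph.dist_comm]; exact sep_rt_rt q
    · exact absurd rfl hne
  · exact sep_rt_pt q τ z' (Or.inl hz')
  · exact sep_rt_pt q τ z' (Or.inr hz')
  · rw [SimpleGraph.dist_comm]; exact sep_rt_pt q τ' z (Or.inl hz)
  · exact sep_low q z z' hz hz' (fun h => hne (by rw [h]))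
  · exact sep_pt_pt q z z' hz hz'
  · rw [SimpleGraph.dist_comm]; exact sep_rt_pt q τ' z (Or.inr hz)
  · rw [SimpleGraph.dist_comm]; exact sep_pt_pt q z' z hz' hz
  · exact sep_high q z z' hz hz' (fun h => hne (by rw [h]))

/-- Every vertex outside the inner zone, the hub roots and the outer zone is strictly covered
by a different point of `S0`. -/
lemma cover_S0 (q : ℕ) (s : Vt (nn q)) :
    (∃ w c, s = mk (nn q) w c ∧ w.length ≤ 8 * q + 11) ∨ (∃ τ, s = rt q τ) ∨
    (∃ w c, s = mk (nn q) w c ∧ 24 * q + 66 ≤ w.length) ∨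
    (∃ y ∈ S0 q, y ≠ s ∧ (G (nn q)).dist s y < 8 * q + 24) := by
  rcases s with ⟨⟨w, c⟩ | ⟨τ, v⟩, hs⟩
  · rcases Nat.lt_or_ge (8 * q + 11) w.length with h1 | h1
    swap
    · left; exact ⟨w, c, rfl, h1⟩
    rcases Nat.lt_or_ge w.length (24 * q + 66) with h2 | h2
    swap
    · right; right; left; exact ⟨w, c, rfl, h2⟩
    right; right; right
    rcases Nat.lt_or_ge w.length (16 * q + 41) with h3 | h3
    · refine ⟨rt q false, Or.inl ⟨false, rfl⟩, ?_, ?_⟩
      · intro h
        have := congrArg Subtype.val h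
        simp [rt, hb] at this
      · rcases Nat.lt_or_ge (3 * nn q false - 1) w.length with h4 | h4
        · have := dist_down (nn q) false w c (nn_pos q false) h4.le
          simp only [nn] at this h4
          exact lt_of_le_of_lt this (by omega)
        · have := dist_up (nn q) false w c (nn_pos q false) h4
          simp only [nn] at this h4
          exact lt_of_le_of_lt this (by omega)
    · rcases Nat.lt_or_ge w.length (20 * q + 55) with h5 | h5
      · refine ⟨rt q true, Or.inl ⟨true, rfl⟩, ?_, ?_⟩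
        · intro h
          have := congrArg Subtype.val h
          simp [rt, hb] at this
        · rcases Nat.lt_or_ge (3 * nn q true - 1) w.length with h4 | h4
          · have := dist_down (nn q) true w c (nn_pos q true) h4.le
            simp only [nn] at this h4
            exact lt_of_le_of_lt this (by omega)
          · have := dist_up (nn q) true w c (nn_pos q true) h4
            simp only [nn] at this h4
            exact lt_of_le_of_lt this (by omega)
      · set x := List.replicate (24 * q + 65 - w.length) false ++ w with hx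
        have hxl : x.length = 24 * q + 65 := by rw [hx]; simp; omega
        refine ⟨pt q x, Or.inr (Or.inr ⟨x, hxl, rfl⟩), ?_, ?_⟩
        · intro h
          have h6 := congrArg Subtype.val h
          simp only [pt, mk, Vx.m.injEq] at h6
          have := congrArg List.length h6.1
          simp only [List.length_append, List.length_replicate, hxl] at this
          omega
        · have h7 := dist_drop (nn q) (List.replicate (4*q+11) false ++ x) false c
            (28 * q + 76 - w.length) (by omega) (by simp [hxl]; omega)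
          have h8 : (List.replicate (4*q+11) false ++ x).drop (28 * q + 76 - w.length) = w := by
            rw [hx, ← List.append_assoc]
            apply List.drop_left'
            simp; omega
          rw [h8, SimpleGraph.dist_comm] at h7
          exact lt_of_le_of_lt h7 (by omega)
  · right
    rcases List.eq_nil_or_concat v with rfl | hne
    · left; exact ⟨τ, rfl⟩
    · right; right
      have hv0 : v ≠ [] := by
        obtain ⟨l, b, rfl⟩ := hne
        simp
      refine ⟨rt q τ, Or.inl ⟨τ, rfl⟩, ?_, ?_⟩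
      · intro h
        have h6 := congrArg Subtype.val h
        simp only [rt, hb, Vx.h.injEq, true_and] at h6
        exact hv0 h6.symm
      · obtain ⟨⟨j, hj⟩, hlt⟩ := id hs
        have := dist_hub (nn q) j τ v hs (nn_pos q τ) hj
        refine lt_of_le_of_lt this ?_
        cases τ <;> simp only [nn] at hlt <;> omega

/-- maximal extension -/
lemma exists_net {V : Type} (H : SimpleGraph V) (k : ℕ) (S : Set V)
    (hS : ∀ x ∈ S, ∀ y ∈ S, x ≠ y → k ≤ H.dist x y) : ∃ S', S ⊆ S' ∧ IsNet H k S' := by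
  have hz : ∀ c ⊆ {S : Set V | ∀ x ∈ S, ∀ y ∈ S, x ≠ y → k ≤ H.dist x y}, IsChain (· ⊆ ·) c →
      c.Nonempty → ∃ ub ∈ {S : Set V | ∀ x ∈ S, ∀ y ∈ S, x ≠ y → k ≤ H.dist x y},
        ∀ s ∈ c, s ⊆ ub := by
    intro c hc hchain _
    refine ⟨⋃₀ c, ?_, fun s hs => Set.subset_sUnion_of_mem hs⟩
    intro x hx y hy hxy
    obtain ⟨s, hs, hxs⟩ := hx
    obtain ⟨s', hs', hys⟩ := hy
    rcases hchain.total hs hs' with h | h
    · exact hc hs' x (h hxs) y hys hxy
    · exact hc hs x hxs y (h hys) hxy
  obtain ⟨S', h1, h2⟩ := zorn_subset_nonempty _ hz S hS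
  exact ⟨S', h1, h2⟩

end Pool.Agent.Helper78.Net
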