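import Pool.Agent.Helper78.Net.Basic

set_option autoImplicit false

open Finset

namespace Pool.Agent.Helper78.Net

universe u

variable {V : Type u} {T : SimpleGraph V}

lemma exists_closer (hT : T.IsTree) (r : V) {v : V} (h : 0 < T.dist r v) :
    ∃ w, T.Adj w v ∧ T.dist r w + 1 = T.dist r v := by
  obtain ⟨p, hp, hl⟩ := hT.connected.exists_path_of_dist v r
  rw [SimpleGraph.dist_comm] at hl
  cases p with
  | nil => simp at h
  | cons hadj q =>
    rename_i w
    refine ⟨w, hadj.symm, ?_⟩
    have h1 : T.dist r w ≤ q.length := by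
      rw [SimpleGraph.dist_comm]; exact T.dist_le q
    have h2 := hadj.diff_dist_adj (u := r)
    rw [SimpleGraph.Walk.length_cons] at hl
    omega

lemma closer_unique (hT : T.IsTree) (r : V) {v w w' : V} (h : T.Adj w v) (h' : T.Adj w' v)
    (hd : T.dist r w + 1 = T.dist r v) (hd' : T.dist r w' + 1 = T.dist r v) : w = w' := by
  obtain ⟨p, hp, hl⟩ := hT.connected.exists_path_of_dist r w
  obtain ⟨p', hp', hl'⟩ := hT.connected.exists_path_of_dist r w'
  have e1 : (p.concat h).IsPath := by
    apply SimpleGraph.Walk.isPath_of_length_eq_dist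
    rw [SimpleGraph.Walk.length_concat, hl, hd]
  have e2 : (p'.concat h').IsPath := by
    apply SimpleGraph.Walk.isPath_of_length_eq_dist
    rw [SimpleGraph.Walk.length_concat, hl', hd']
  have e3 : p.concat h = p'.concat h' := by
    have := (hT.isAcyclic.subsingleton_path r v).elim ⟨_, e1⟩ ⟨_, e2⟩
    exact congrArg Subtype.val this
  have := congrArg SimpleGraph.Walk.penultimate e3
  simpa using this

open Classical in
/-- the parent of `v` with respect to the root `r` -/
noncomputable def par (T : SimpleGraph V) (r v : V) : V :=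
  if h : ∃ w, T.Adj w v ∧ T.dist r w + 1 = T.dist r v then h.choose else v

lemma par_spec (hT : T.IsTree) (r : V) {v : V} (h : 0 < T.dist r v) :
    T.Adj (par T r v) v ∧ T.dist r (par T r v) + 1 = T.dist r v := by
  have hex := exists_closer hT r h
  unfold par
  rw [dif_pos hex]
  exact hex.choose_spec

lemma par_eq (hT : T.IsTree) (r : V) {v w : V} (h : T.Adj w v) (hd : T.dist r w + 1 = T.dist r v) :
    par T r v = w := by
  have h2 := par_spec hT r (v := v) (by omega)
  exact closer_unique hT r h2.1 h h2.2 hd

lemma level_par (hT : T.IsTree) (r v : V) : T.dist r (par T r v) = T.dist r v - 1 := by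
  rcases Nat.eq_zero_or_pos (T.dist r v) with h | h
  · have : par T r v = v := by
      unfold par
      rw [dif_neg]
      rintro ⟨w, -, hw⟩
      omega
    rw [this, h]
  · have := (par_spec hT r h).2
    omega

lemma level_iter (hT : T.IsTree) (r v : V) (n : ℕ) :
    T.dist r ((par T r)^[n] v) = T.dist r v - n := by
  induction n with
  | zero => simp
  | succ n ih => rw [Function.iterate_succ_apply', level_par hT, ih]; omega

lemma adj_cases (hT : T.IsTree) (r : V) {x y : V} (h : T.Adj x y) :
    (par T r x = y ∧ T.dist r x = T.dist r y + 1) ∨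
      (par T r y = x ∧ T.dist r y = T.dist r x + 1) := by
  rcases hT.dist_eq_dist_add_one_of_adj r h with h1 | h1
  · left; exact ⟨par_eq hT r h.symm h1.symm, h1⟩
  · right; exact ⟨par_eq hT r h h1.symm, h1⟩

lemma meet_walk (hT : T.IsTree) (r : V) {x y : V} (p : T.Walk x y) :
    ∃ i j, i + j ≤ p.length ∧ i ≤ T.dist r x ∧ j ≤ T.dist r y ∧
      (par T r)^[i] x = (par T r)^[j] y := by
  induction p with
  | nil => exact ⟨0, 0, by simp, by simp, by simp, rfl⟩
  | cons hadj q ih =>
    rename_i x x' y
    obtain ⟨i, j, hij, hi, hj, he⟩ := ih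
    rw [SimpleGraph.Walk.length_cons]
    rcases adj_cases hT r hadj with ⟨h1, h2⟩ | ⟨h1, h2⟩
    · refine ⟨i + 1, j, by omega, by omega, hj, ?_⟩
      rw [Function.iterate_succ_apply, h1, he]
    · rcases i with _ | i
      · refine ⟨0, j + 1, by omega, by omega, ?_, ?_⟩
        · have h3 := level_iter hT r y j
          rw [← he] at h3
          simp only [Function.iterate_zero, id_eq] at h3
          omega
        · rw [Function.iterate_succ_apply', ← he]
          simp [h1]
      · refine ⟨i, j, by omega, by omega, hj, ?_⟩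
        rw [← he, Function.iterate_succ_apply, h1]

lemma meet (hT : T.IsTree) (r x y : V) :
    ∃ i j, i + j ≤ T.dist x y ∧ i ≤ T.dist r x ∧ j ≤ T.dist r y ∧
      (par T r)^[i] x = (par T r)^[j] y := by
  obtain ⟨p, hp⟩ := hT.connected.exists_walk_length_eq_dist x y
  obtain ⟨i, j, h⟩ := meet_walk hT r p
  exact ⟨i, j, by rw [← hp]; exact h.1, h.2⟩

lemma dist_iter_le (hT : T.IsTree) (r v : V) (n : ℕ) : T.dist v ((par T r)^[n] v) ≤ n := by
  induction n with
  | zero => simp
  | succ n ih =>
    rw [Function.iterate_succ_apply']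
    set w := (par T r)^[n] v with hw
    have h1 : T.dist w (par T r w) ≤ 1 := by
      rcases Nat.eq_zero_or_pos (T.dist r w) with h | h
      · have : par T r w = w := by
          unfold par
          rw [dif_neg]
          rintro ⟨w', -, hw'⟩
          omega
        rw [this]; simp
      · rw [SimpleGraph.dist_comm, SimpleGraph.dist_eq_one_iff_adj.mpr (par_spec hT r h).1]
    have := hT.connected.dist_triangle (u := v) (v := w) (w := par T r w)
    omega

lemma dist_iter_ge (hT : T.IsTree) (r v : V) (n : ℕ) (hn : n ≤ T.dist r v) :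
    n ≤ T.dist v ((par T r)^[n] v) := by
  have h1 := level_iter hT r v n
  have h2 := hT.connected.dist_triangle (u := r) (v := (par T r)^[n] v) (w := v)
  rw [SimpleGraph.dist_comm (u := (par T r)^[n] v) (v := v)] at h2
  omega

/-- children -/
lemma exists_children (hT : T.IsTree) (r : V) {d : ℕ} (hd : 1 ≤ d)
    (hreg : ∀ v, (T.neighborSet v).ncard = d) (v : V) :
    ∃ C : Finset V, d - 1 ≤ C.card ∧
      ∀ w ∈ C, par T r w = v ∧ T.dist r w = T.dist r v + 1 := by
  classical
  have hfin : (T.neighborSet v).Finite := by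
    apply Set.finite_of_ncard_ne_zero
    rw [hreg v]; omega
  refine ⟨(hfin.toFinset).erase (par T r v), ?_, ?_⟩
  · have h1 : hfin.toFinset.card = d := by
      rw [← Set.ncard_eq_toFinset_card _ hfin, hreg v]
    have := Finset.pred_card_le_card_erase (s := hfin.toFinset) (a := par T r v)
    omega
  · intro w hw
    rw [Finset.mem_erase, Set.Finite.mem_toFinset, SimpleGraph.mem_neighborSet] at hw
    rcases adj_cases hT r hw.2 with h | h
    · exact absurd h.1.symm hw.1
    · exact h

lemma exists_desc (hT : T.IsTree) (r : V) {d : ℕ} (hd : 1 ≤ d)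
    (hreg : ∀ v, (T.neighborSet v).ncard = d) (u : V) (c : ℕ) :
    ∃ Z : Finset V, (d - 1) ^ c ≤ Z.card ∧
      ∀ z ∈ Z, (par T r)^[c] z = u ∧ T.dist r z = T.dist r u + c := by
  classical
  induction c with
  | zero => exact ⟨{u}, by simp, by simp⟩
  | succ c ih =>
    obtain ⟨Z, hZ, hZ'⟩ := ih
    choose C hC hC' using exists_children hT r hd hreg
    refine ⟨Z.biUnion C, ?_, ?_⟩
    · rw [Finset.card_biUnion]
      · calc (d-1)^(c+1) = (d-1)^c * (d-1) := pow_succ _ _
          _ ≤ Z.card * (d-1) := Nat.mul_le_mul_right _ hZ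
          _ = ∑ _z ∈ Z, (d-1) := by rw [Finset.sum_const, smul_eq_mul]
          _ ≤ ∑ z ∈ Z, (C z).card := Finset.sum_le_sum (fun z _ => hC z)
      · intro z _ z' _ hzz'
        show Disjoint (C z) (C z')
        rw [Finset.disjoint_left]
        intro w hw hw'
        exact hzz' ((hC' z w hw).1.symm.trans (hC' z' w hw').1)
    · intro z hz
      rw [Finset.mem_biUnion] at hz
      obtain ⟨z', hz', hz⟩ := hz
      have h1 := hC' z' z hz
      have h2 := hZ' z' hz'
      refine ⟨?_, by omega⟩
      rw [Function.iterate_succ_apply, h1.1, h2.1]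

end Pool.Agent.Helper78.Net
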