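import Pool.Agent.Helper78.Net.Tree

set_option autoImplicit false

open Finset

namespace Pool.Agent.Helper78.Net

universe u

variable {V : Type u} {T : SimpleGraph V}

/-- `u` is a proper ancestor of `y` -/
def Anc (T : SimpleGraph V) (r u y : V) : Prop :=
  ∃ n, 1 ≤ n ∧ n ≤ T.dist r y ∧ (par T r)^[n] y = u

lemma many_desc (hT : T.IsTree) (r : V) {d : ℕ} (hd : 3 ≤ d)
    (hreg : ∀ v, (T.neighborSet v).ncard = d) {k : ℕ} (hk : 1 ≤ k) {S : Set V}
    (hS : IsNet T k S) {u : V} (hu : u ∈ S) :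
    ∃ Y : Finset V, (d - 1) ^ ((k + 3) / 2) ≤ Y.card ∧
      ∀ y ∈ Y, y ∈ S ∧ Anc T r u y ∧ T.dist u y ≤ 2 * k := by
  classical
  set c := (k + 3) / 2 with hc
  have hck : c ≤ k + 1 := by omega
  have hc1 : 1 ≤ c := by omega
  obtain ⟨Z, hZ, hZ'⟩ := exists_desc hT r (by omega) hreg u c
  have hx : ∀ z : V, ∃ x, (par T r)^[k + 1 - c] x = z ∧ T.dist r x = T.dist r z + (k + 1 - c) := by
    intro z
    obtain ⟨X, hX, hX'⟩ := exists_desc hT r (d := d) (by omega) hreg z (k + 1 - c)
    have : 0 < X.card := lt_of_lt_of_le (Nat.pow_pos (by omega)) hX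
    obtain ⟨x, hx⟩ := Finset.card_pos.mp this
    exact ⟨x, hX' x hx⟩
  choose x hx1 hx2 using hx
  have hy : ∀ z : V, ∃ y ∈ S, T.dist (x z) y < k := fun z => hS.cover hk (x z)
  choose y hy1 hy2 using hy
  have hxu : ∀ z ∈ Z, (par T r)^[k + 1] (x z) = u := by
    intro z hz
    have : k + 1 = c + (k + 1 - c) := by omega
    rw [this, Function.iterate_add_apply, hx1, (hZ' z hz).1]
  have key : ∀ z ∈ Z, ∃ n, n ≤ T.dist r (y z) ∧ (par T r)^[n] (y z) = z := by
    intro z hz
    obtain ⟨i, j, hij, hi, hj, he⟩ := meet hT r (x z) (y z)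
    have hyz := hy2 z
    have hlz := (hZ' z hz).2
    have hlx := hx2 z
    rcases Nat.lt_or_ge (k + 1 - c) i with h | h
    · exfalso
      have h1 : (par T r)^[k + 1 - i] ((par T r)^[i] (x z)) = u := by
        rw [← Function.iterate_add_apply, show k + 1 - i + i = k + 1 by omega, hxu z hz]
      have h2 : T.dist ((par T r)^[i] (x z)) u ≤ k + 1 - i := by
        have := dist_iter_le hT r ((par T r)^[i] (x z)) (k + 1 - i)
        rwa [h1] at this
      have h3 : T.dist (y z) ((par T r)^[j] (y z)) ≤ j := dist_iter_le hT r (y z) j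
      rw [← he] at h3
      have h4 := hT.connected.dist_triangle (u := y z) (v := (par T r)^[i] (x z)) (w := u)
      have h5 := level_iter hT r (x z) i
      have h6 := level_iter hT r (y z) j
      rw [← he] at h6
      have hne : y z ≠ u := by
        intro heq
        rw [heq] at h6
        omega
      have h7 := hS.1 (y z) (hy1 z) u hu hne
      omega
    · have h1 : (par T r)^[(k + 1 - c - i) + j] (y z) = z := by
        rw [Function.iterate_add_apply, ← he, ← Function.iterate_add_apply,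
          show k + 1 - c - i + i = k + 1 - c by omega, hx1]
      refine ⟨(k + 1 - c - i) + j, ?_, h1⟩
      have h2 := level_iter hT r (y z) ((k + 1 - c - i) + j)
      rw [h1] at h2
      omega
  have hinj : Set.InjOn y Z := by
    intro z hz z' hz' heq
    obtain ⟨n, hn, hn'⟩ := key z hz
    obtain ⟨m, hm, hm'⟩ := key z' hz'
    have h1 := level_iter hT r (y z) n
    have h2 := level_iter hT r (y z') m
    rw [hn'] at h1
    rw [hm'] at h2
    have h3 := (hZ' z hz).2
    have h4 := (hZ' z' hz').2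
    rw [heq] at h1 hn hn'
    have : n = m := by omega
    subst this
    exact hn'.symm.trans hm'
  refine ⟨Z.image y, ?_, ?_⟩
  · rw [Finset.card_image_of_injOn hinj]
    exact hZ
  · intro w hw
    rw [Finset.mem_image] at hw
    obtain ⟨z, hz, rfl⟩ := hw
    obtain ⟨n, hn, hn'⟩ := key z hz
    have h1 := level_iter hT r (y z) n
    rw [hn'] at h1
    have h3 := (hZ' z hz).2
    refine ⟨hy1 z, ⟨c + n, by omega, by omega, ?_⟩, ?_⟩
    · rw [Function.iterate_add_apply, hn', (hZ' z hz).1]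
    · have h4 := dist_iter_le hT r (x z) (k + 1)
      rw [hxu z hz] at h4
      have h5 := hT.connected.dist_triangle (u := u) (v := x z) (w := y z)
      rw [SimpleGraph.dist_comm (u := u) (v := x z)] at h5
      have h6 := hy2 z
      omega

lemma few_anc (hT : T.IsTree) (r : V) {k : ℕ} (hk : 1 ≤ k) {S : Set V}
    (hS : IsNet T k S) {y : V} (hy : y ∈ S) (F : Finset V)
    (hF : ∀ u ∈ F, u ∈ S ∧ Anc T r u y ∧ T.dist u y ≤ 2 * k) : F.card ≤ 2 := by
  classical
  by_contra hcon
  push Not at hcon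
  obtain ⟨a, ha, b, hb, c, hc, hab, hac, hbc⟩ := Finset.two_lt_card.mp hcon
  have base : ∀ u ∈ F, ∃ n, k ≤ n ∧ n ≤ 2 * k ∧ n ≤ T.dist r y ∧ (par T r)^[n] y = u := by
    intro u hu
    obtain ⟨huS, ⟨n, hn1, hn2, hn3⟩, hd⟩ := hF u hu
    have h1 := level_iter hT r y n
    rw [hn3] at h1
    have hne : u ≠ y := by
      rintro rfl
      omega
    have h2 := hS.1 u huS y hy hne
    have h3 := dist_iter_le hT r y n
    have h4 := dist_iter_ge hT r y n hn2
    rw [hn3, SimpleGraph.dist_comm] at h3 h4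
    exact ⟨n, by omega, by omega, hn2, hn3⟩
  have sep : ∀ u ∈ F, ∀ v ∈ F, u ≠ v → ∀ n m, n ≤ T.dist r y → m ≤ T.dist r y →
      (par T r)^[n] y = u → (par T r)^[m] y = v → n ≤ m → n + k ≤ m := by
    intro u hu v hv huv n m _ _ h1 h2 hnm
    have h3 : (par T r)^[m - n] u = v := by
      rw [← h1, ← Function.iterate_add_apply, Nat.sub_add_cancel hnm, h2]
    have h4 := dist_iter_le hT r u (m - n)
    rw [h3] at h4
    have h5 := hS.1 u (hF u hu).1 v (hF v hv).1 huv
    omega
  obtain ⟨na, ha1, ha2, ha3, ha4⟩ := base a ha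
  obtain ⟨nb, hb1, hb2, hb3, hb4⟩ := base b hb
  obtain ⟨nc, hc1, hc2, hc3, hc4⟩ := base c hc
  have s1 := sep a ha b hb hab na nb ha3 hb3 ha4 hb4
  have s2 := sep b hb a ha hab.symm nb na hb3 ha3 hb4 ha4
  have s3 := sep a ha c hc hac na nc ha3 hc3 ha4 hc4
  have s4 := sep c hc a ha hac.symm nc na hc3 ha3 hc4 ha4
  have s5 := sep b hb c hc hbc nb nc hb3 hc3 hb4 hc4
  have s6 := sep c hc b hb hbc.symm nc nb hc3 hb3 hc4 hb4
  omega

/-- The key inequality for finite subsets of the net graph. -/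
lemma boundary_bound (hT : T.IsTree) {d : ℕ} (hd : 3 ≤ d)
    (hreg : ∀ v, (T.neighborSet v).ncard = d) {k : ℕ} (hk : 1 ≤ k) {S : Set V}
    (hS : IsNet T k S) (A : Finset S) :
    ((((d - 1) ^ ((k + 3) / 2) - 2) * A.card : ℕ) : ℕ∞) ≤ (edgeBoundary (netGraph T k S) A).encard := by
  classical
  obtain ⟨r⟩ := hT.connected.nonempty
  set D := (d - 1) ^ ((k + 3) / 2) with hD
  have hY : ∀ u : S, ∃ Y : Finset S, D ≤ Y.card ∧
      ∀ y ∈ Y, Anc T r u y ∧ T.dist (u : V) y ≤ 2 * k := by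
    intro u
    obtain ⟨Y, h1, h2⟩ := many_desc hT r hd hreg hk hS u.2
    refine ⟨Y.subtype (· ∈ S), ?_, ?_⟩
    · rw [Finset.card_subtype, Finset.filter_true_of_mem (fun y hy => (h2 y hy).1)]
      exact h1
    · intro y hy
      rw [Finset.mem_subtype] at hy
      exact (h2 y hy).2
  choose f hf1 hf2 using hY
  have hadj : ∀ x ∈ A, ∀ y ∈ f x, (netGraph T k S).Adj x y := by
    intro x _ y hy
    refine ⟨?_, (hf2 x y hy).2⟩
    rintro rfl
    obtain ⟨n, hn1, hn2, hn3⟩ := (hf2 x x hy).1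
    have := level_iter hT r x n
    rw [hn3] at this
    omega
  refine le_trans ?_ (flow (netGraph T k S) A f hadj)
  have h1 : ∑ x ∈ A, (f x ∩ A).card ≤ 2 * A.card := by
    have h2 : ∑ x ∈ A, (f x ∩ A).card = ∑ y ∈ A, (A.filter (fun x => y ∈ f x)).card := by
      have h3 : ∀ x, (f x ∩ A).card = ∑ y ∈ A, if y ∈ f x then 1 else 0 := by
        intro x
        rw [Finset.inter_comm, ← Finset.filter_mem_eq_inter, Finset.card_filter]
      simp only [h3, Finset.card_filter]
      rw [Finset.sum_comm]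
    rw [h2, mul_comm, ← smul_eq_mul, ← Finset.sum_const]
    refine Finset.sum_le_sum (fun y _ => ?_)
    have h4 := few_anc hT r hk hS y.2 ((A.filter (fun x => y ∈ f x)).map (Function.Embedding.subtype _)) ?_
    · rwa [Finset.card_map] at h4
    · intro u hu
      rw [Finset.mem_map] at hu
      obtain ⟨x, hx, rfl⟩ := hu
      rw [Finset.mem_filter] at hx
      exact ⟨x.2, hf2 x y hx.2⟩
  have h2 : D * A.card ≤ ∑ x ∈ A, (f x).card := by
    rw [mul_comm, ← smul_eq_mul, ← Finset.sum_const]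
    exact Finset.sum_le_sum (fun x _ => hf1 x)
  have h3 : ∑ x ∈ A, (f x).card = ∑ x ∈ A, (f x \ A).card + ∑ x ∈ A, (f x ∩ A).card := by
    rw [← Finset.sum_add_distrib]
    refine Finset.sum_congr rfl (fun x _ => ?_)
    rw [Finset.card_sdiff_add_card_inter]
  have h4 : (D - 2) * A.card ≤ ∑ x ∈ A, (f x \ A).card := by
    rw [Nat.sub_mul]
    omega
  exact_mod_cast h4

theorem tree_bound (hT : T.IsTree) {d : ℕ} (hd : 3 ≤ d)
    (hreg : ∀ v, (T.neighborSet v).ncard = d) {k : ℕ} (hk : 1 ≤ k) {S : Set V}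
    (hS : IsNet T k S) :
    (((d - 1) ^ ((k + 3) / 2) - 2 : ℕ) : ENNReal) ≤ cheeger (netGraph T k S) := by
  apply le_cheeger
  intro A _
  have := boundary_bound hT hd hreg hk hS A
  have h2 : ((((((d - 1) ^ ((k + 3) / 2) - 2) * A.card : ℕ) : ℕ∞)) : ENNReal)
      ≤ ((edgeBoundary (netGraph T k S) A).encard : ENNReal) := by
    exact_mod_cast this
  simpa using h2

end Pool.Agent.Helper78.Net
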